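import Mathlib
import Pool.Agent.H49.WS2

set_option autoImplicit false

namespace Pool.Agent.Results.MP_ba281e_nt.No

open Filter Topology Finset MeasureTheory

/-- The fractional parts. -/
noncomputable def x (α : ℝ) (n : ℕ) : ℝ := Int.fract ((n : ℝ) ^ 2 * α)

open Classical in
/-- The correlation of level `l + 1`. -/
noncomputable def R (l N : ℕ) (α : ℝ) (f : (Fin l → ℝ) → ℝ) : ℝ :=
  1 / N * ∑ n ∈ (Fintype.piFinset fun _ : Fin (l + 1) => Icc 1 N).filter Function.Injective,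
    ∑' m : Fin l → ℤ, f fun i => N * (x α (n i.castSucc) - x α (n i.succ) + m i)

/-- Type three. -/
def Ty (α : ℝ) : Prop := ∃ C : ℝ, 0 < C ∧ ∀ (a : ℤ) (q : ℕ), 1 ≤ q → IsCoprime a q →
  C * (q : ℝ) ^ (-3 : ℝ) ≤ |α - a / q|

/-- Square roots of the denominators. -/
def w (n : ℕ) : ℕ := 2 ^ 3 ^ n

/-- Numerators. -/
def p : ℕ → ℕ
  | 0 => 1
  | n + 1 => p n * w n ^ 4 + 1

/-- The number. -/
noncomputable def al : ℝ := ⨆ k, (p k : ℝ) / w k ^ 2

lemma ws (n : ℕ) : w (n + 1) = w n ^ 3 := by rw [w, w, pow_succ, pow_mul]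

lemma w2 (n : ℕ) : (2 : ℝ) ≤ w n := by
  exact_mod_cast Nat.le_self_pow (show 3 ^ n ≠ 0 by positivity) 2

lemma wn (n : ℕ) : n < w n :=
  (Nat.lt_pow_self (by norm_num)).trans (Nat.lt_pow_self (by norm_num))

lemma tb (n : ℕ) : (p n : ℝ) / w n ^ 2 + 1 / w n ^ 6 ≤ al ∧
    al ≤ p n / w n ^ 2 + 2 * (1 / w n ^ 6) := by
  refine H49.WS.sup (r := fun n => (p n : ℝ) / w n ^ 2) (δ := fun n => 1 / (w n : ℝ) ^ 6)
    (fun n => ?_) (fun n => by positivity) (fun n => ?_) n <;>
    have w0 := (Nat.zero_le _).trans_lt (wn n) <;> have := w2 n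
  · rw [p, ws]; push_cast; field_simp
  · rw [ws, mul_one_div, div_le_div_iff₀ (by positivity) (by positivity)]
    push_cast
    have a : (2 : ℝ) ≤ w n ^ 12 := this.trans (le_self_pow₀ (by linarith) (by norm_num))
    nlinarith [show (0 : ℝ) < w n ^ 6 by positivity]

lemma cop (n : ℕ) : (w n ^ 2).Coprime (p n) := by
  refine Nat.Coprime.pow_left _ (Nat.Coprime.pow_left _ (Nat.coprime_two_left.2 ?_))
  cases n with
  | zero => exact odd_one
  | succ n =>
    exact Even.add_one (Even.mul_left ((Nat.even_pow' (by norm_num)).2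
      ((Nat.even_pow' (by positivity)).2 even_two)) _)

lemma ty (a : ℤ) (q : ℕ) (q1 : 1 ≤ q) : 1 / 64 / (q : ℝ) ^ 3 ≤ |al - a / q| := by
  have ex : ∃ n, 4 * q ≤ w n ^ 4 :=
    ⟨4 * q, (wn _).le.trans (Nat.le_self_pow (by norm_num) _)⟩
  obtain ⟨n, h1, h2⟩ : ∃ n, 4 * (q : ℝ) ≤ w n ^ 4 ∧ (w n : ℝ) ^ 2 ≤ 32 * q ^ 2 := by
    refine ⟨Nat.find ex, by exact_mod_cast Nat.find_spec ex, ?_⟩
    rcases h : Nat.find ex with _ | k
    · have : (1 : ℝ) ≤ q := by exact_mod_cast q1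
      norm_num [w]; nlinarith
    · have b : (w k : ℝ) ^ 4 < 4 * q := by
        exact_mod_cast not_le.1 (Nat.find_min ex (show k < _ by omega))
      have c := pow_le_pow_right₀ (show (1 : ℝ) ≤ w k by linarith [w2 k]) (show 6 ≤ 8 by norm_num)
      rw [ws]; push_cast
      nlinarith [pow_le_pow_left₀ (by positivity) b.le 2]
  have q0 : (0 : ℝ) < q := by exact_mod_cast q1
  have y := w2 n
  have w0 := (Nat.zero_le _).trans_lt (wn n)
  obtain ⟨t1, t2⟩ := tb n
  rcases eq_or_ne (a * (w n ^ 2 : ℕ)) ((p n * q : ℕ) : ℤ) with e | e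
  · have b : w n ^ 2 ∣ q := (cop n).dvd_of_dvd_mul_left (by
      exact_mod_cast (show ((w n ^ 2 : ℕ) : ℤ) ∣ (p n * q : ℕ) from ⟨a, by rw [← e, mul_comm]⟩))
    have c : (w n : ℝ) ^ 2 ≤ q := by exact_mod_cast Nat.le_of_dvd q1 b
    have d : (a : ℝ) / q = p n / w n ^ 2 := by
      rw [div_eq_div_iff q0.ne' (by positivity)]; exact_mod_cast e
    have f := one_div_le_one_div_of_le (by positivity) (pow_le_pow_left₀ (by positivity) c 3)
    rw [← pow_mul] at f
    rw [d, div_right_comm]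
    refine le_trans ?_ (le_abs_self _)
    linarith [show (0 : ℝ) < 1 / q ^ 3 by positivity]
  · have b : (1 : ℝ) ≤ |(a * w n ^ 2 - p n * q : ℝ)| := by
      exact_mod_cast Int.one_le_abs (sub_ne_zero.2 e)
    have c : 1 / (q * w n ^ 2 : ℝ) ≤ |(a / q - p n / w n ^ 2 : ℝ)| := by
      rw [div_sub_div _ _ q0.ne' (by positivity), abs_div, abs_of_pos (a := (q : ℝ) * _) (by positivity),
        mul_comm (q : ℝ) (p n)]
      gcongr
    have d : 1 / (w n : ℝ) ^ 6 ≤ 1 / (q * w n ^ 2 : ℝ) / 4 := by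
      rw [div_div]; exact one_div_le_one_div_of_le (by positivity) (by nlinarith)
    have f : 1 / 64 / (q : ℝ) ^ 3 ≤ 1 / (q * w n ^ 2 : ℝ) / 2 := by
      rw [div_div, div_div]; exact one_div_le_one_div_of_le (by positivity) (by nlinarith)
    have g := abs_sub_le (a / q : ℝ) al (p n / w n ^ 2)
    rw [abs_sub_comm _ al, abs_of_nonneg (a := al - p n / _)
      (by linarith [show (0 : ℝ) < 1 / w n ^ 6 by positivity])] at g
    linarith

/-- The test function. -/
noncomputable def F (y : Fin 10 → ℝ) : ℝ := max 0 (2049 - ‖y‖)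

lemma F0 (y : Fin 10 → ℝ) (h : y ∉ Metric.closedBall (0 : Fin 10 → ℝ) 2049) : F y = 0 :=
  max_eq_left (by rw [mem_closedBall_zero_iff, not_le] at h; linarith)

lemma one {N : ℕ} (N1 : 1 ≤ N) (u v : Fin 10 → ℕ) (m : Fin 10 → ℤ)
    (h : ∀ i, |N * (x al (u i) - x al (v i) + m i)| ≤ 2048) :
    1 ≤ ∑' m : Fin 10 → ℤ, F fun i => N * (x al (u i) - x al (v i) + m i) := by
  refine le_trans (le_max_of_le_right ?_) ((summable_of_ne_finset_zero
    (s := Fintype.piFinset fun _ => Icc (-2050) 2050) fun k hk => F0 _ fun b => hk ?_).le_tsum m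
    fun _ _ => le_max_left _ _)
  · linarith [(pi_norm_le_iff_of_nonneg (x := fun i => N * (x al (u i) - x al (v i) + m i))
      (show (0 : ℝ) ≤ 2048 by norm_num)).2 h]
  · rw [Fintype.mem_piFinset]
    intro i
    rw [mem_Icc, ← abs_le]
    have c := (norm_le_pi_norm _ i).trans (mem_closedBall_zero_iff.1 b)
    rw [norm_mul, Real.norm_natCast, Real.norm_eq_abs] at c
    have d := abs_le.1 ((le_mul_of_one_le_left (abs_nonneg _) (Nat.one_le_cast.2 N1)).trans c)
    have : |(k i : ℝ)| ≤ 2050 := abs_le.2 ⟨by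
      linarith [d.1, Int.fract_lt_one ((u i : ℝ) ^ 2 * al), Int.fract_nonneg ((v i : ℝ) ^ 2 * al),
        show x al (u i) = Int.fract _ from rfl, show x al (v i) = Int.fract _ from rfl], by
      linarith [d.2, Int.fract_lt_one ((v i : ℝ) ^ 2 * al), Int.fract_nonneg ((u i : ℝ) ^ 2 * al),
        show x al (u i) = Int.fract _ from rfl, show x al (v i) = Int.fract _ from rfl]⟩
    exact_mod_cast this

lemma key {S N : ℕ} (S1 : 1 ≤ S) (h1 : (11 * S) ^ 10 ≤ N) (h2 : N ≤ (22 * S) ^ 10) :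
    (S : ℝ) / 22 ^ 10 ≤ R 10 N al F := by
  classical
  have N1 : 1 ≤ N := le_trans (Nat.one_le_pow _ _ (by omega)) h1
  have ex : ∃ n, (11 * S) ^ 9 < w (n + 1) := ⟨_, (Nat.lt_succ_self _).trans (wn _)⟩
  obtain ⟨n, a1, a2⟩ : ∃ n, (11 * S) ^ 9 < w (n + 1) ∧ w n ≤ (11 * S) ^ 9 := by
    refine ⟨Nat.find ex, Nat.find_spec ex, ?_⟩
    rcases h : Nat.find ex with _ | k
    · exact le_trans (by norm_num [w]) (Nat.pow_le_pow_left (show 11 * 1 ≤ 11 * S by omega) 9)
    · exact not_lt.1 (Nat.find_min ex (by omega))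
  have a3 : (11 * S) ^ 3 ≤ w n := by
    rw [ws, show 9 = 3 * 3 from rfl, pow_mul] at a1
    exact (lt_of_pow_lt_pow_left₀ 3 (Nat.zero_le _) a1).le
  have w0 : 0 < w n := (Nat.zero_le _).trans_lt (wn n)
  set g : (Fin 11 → ℕ) → Fin 11 → ℕ := fun s i => w n * (S * i + s i + 1) with hg
  have gb : ∀ s ∈ Fintype.piFinset fun _ : Fin 11 => range S, ∀ i : Fin 11,
      S * i + s i + 1 ≤ 11 * S := fun s hs i => by
    have := mem_range.1 (Fintype.mem_piFinset.1 hs i)
    nlinarith [i.2]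
  have c : ((Fintype.piFinset fun _ : Fin 11 => range S).image g).card = S ^ 11 := by
    rw [card_image_of_injective _ fun s t e => funext fun i => by
      simpa [hg, w0.ne'] using congrFun e i]
    simp
  have d : (S : ℝ) ^ 11 ≤ ∑ n ∈ (Fintype.piFinset fun _ : Fin 11 => Icc 1 N).filter
      Function.Injective, ∑' m : Fin 10 → ℤ,
        F fun i => N * (x al (n i.castSucc) - x al (n i.succ) + m i) := by
    refine le_trans ?_ (sum_le_sum_of_subset_of_nonneg (s := image g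
      (Fintype.piFinset fun _ : Fin 11 => range S)) (fun k hk => ?_) fun _ _ _ =>
        tsum_nonneg fun _ => le_max_left _ _)
    · refine le_trans (by rw [c]; simp) (card_nsmul_le_sum _ _ 1 fun k hk => ?_)
      obtain ⟨s, hs, rfl⟩ := mem_image.1 hk
      refine one N1 _ _ (fun i => ⌊(g s i.castSucc : ℝ) ^ 2 * al⌋ - ⌊(g s i.succ : ℝ) ^ 2 * al⌋ -
        (((S * i.castSucc + s i.castSucc + 1 : ℕ) : ℤ) ^ 2 - (S * i.succ + s i.succ + 1 : ℕ) ^ 2) *
          p n) fun i => ?_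
      have b1 : ((S * i.castSucc + s i.castSucc + 1 : ℕ) : ℝ) ≤ 11 * S := by
        exact_mod_cast gb s hs _
      have b2 : ((S * i.succ + s i.succ + 1 : ℕ) : ℝ) ≤ 11 * S := by exact_mod_cast gb s hs _
      simp only [x, hg, Int.fract]
      generalize S * i.castSucc + s i.castSucc + 1 = u at b1 ⊢
      generalize S * i.succ + s i.succ + 1 = v at b2 ⊢
      have y := w2 n
      obtain ⟨t1, t2⟩ := tb n
      have e : ((w n * u : ℕ) : ℝ) ^ 2 * al - ⌊((w n * u : ℕ) : ℝ) ^ 2 * al⌋ -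
          (((w n * v : ℕ) : ℝ) ^ 2 * al - ⌊((w n * v : ℕ) : ℝ) ^ 2 * al⌋) +
          (⌊((w n * u : ℕ) : ℝ) ^ 2 * al⌋ - ⌊((w n * v : ℕ) : ℝ) ^ 2 * al⌋ -
          ((u : ℤ) ^ 2 - v ^ 2) * p n : ℤ) = (u ^ 2 - v ^ 2) * (w n ^ 2 * (al - p n / w n ^ 2)) := by
        push_cast; field_simp; ring
      have e1 : |(u : ℝ) ^ 2 - v ^ 2| ≤ (11 * S) ^ 2 := abs_le.2
        ⟨by nlinarith [pow_le_pow_left₀ (by positivity) b2 2],
          by nlinarith [pow_le_pow_left₀ (by positivity) b1 2]⟩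
      have e2 : |(w n : ℝ) ^ 2 * (al - p n / w n ^ 2)| ≤ 2 / ((11 * S) ^ 3) ^ 4 := by
        rw [abs_of_nonneg (mul_nonneg (by positivity)
          (by linarith [show (0 : ℝ) < 1 / w n ^ 6 by positivity]))]
        calc _ ≤ (w n : ℝ) ^ 2 * (2 * (1 / w n ^ 6)) := by gcongr; linarith
          _ = 2 / w n ^ 4 := by field_simp
          _ ≤ _ := by gcongr; exact_mod_cast a3
      have e3 : (N : ℝ) ≤ (22 * S) ^ 10 := by exact_mod_cast h2
      rw [e, abs_mul, abs_mul, Nat.abs_cast]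
      refine (mul_le_mul e3 (mul_le_mul e1 e2 (abs_nonneg _) (by positivity)) (by positivity)
        (by positivity)).trans_eq ?_
      field_simp; norm_num
    · obtain ⟨s, hs, rfl⟩ := mem_image.1 hk
      refine mem_filter.2 ⟨Fintype.mem_piFinset.2 fun i => mem_Icc.2 ⟨Nat.mul_pos w0 (by omega),
        ((Nat.mul_le_mul a2 (gb s hs i)).trans_eq (pow_succ _ _).symm).trans h1⟩, fun i j e => ?_⟩
      have b := congrArg (· / S) (add_right_cancel (Nat.eq_of_mul_eq_mul_left w0 e))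
      simp only [Nat.mul_add_div S1, Nat.div_eq_of_lt (mem_range.1 (Fintype.mem_piFinset.1 hs _)),
        add_zero] at b
      exact Fin.ext b
  refine le_trans ?_ (mul_le_mul_of_nonneg_left d (by positivity))
  rw [one_div_mul_eq_div, div_le_div_iff₀ (by positivity) (by positivity)]
  calc _ ≤ (S : ℝ) * (22 * S) ^ 10 := by gcongr; exact_mod_cast h2
    _ = _ := by ring

lemma lim : Tendsto (fun N => R 10 N al F) atTop atTop := by
  refine tendsto_atTop.2 fun b => ?_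
  obtain ⟨T, hT⟩ := exists_nat_ge (b * 22 ^ 10)
  filter_upwards [eventually_ge_atTop ((11 * (T + 1)) ^ 10)] with N hN
  have a1 := (Nat.pow_nthRoot_le_iff (n := 10) (a := N)).2 (Or.inl (by norm_num))
  have a2 := Nat.lt_pow_nthRoot_add_one (n := 10) (by norm_num) N
  have a3 := lt_of_pow_lt_pow_left₀ 10 (Nat.zero_le _) (hN.trans_lt a2)
  refine le_trans ?_ (key (S := Nat.nthRoot 10 N / 11) (by omega)
    ((Nat.pow_le_pow_left (by omega) _).trans a1) (a2.le.trans (Nat.pow_le_pow_left (by omega) _)))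
  rw [le_div_iff₀ (by positivity)]
  exact hT.trans (Nat.cast_le.2 (by omega))

theorem result : ∃ α : ℝ, Irrational α ∧ Ty α ∧
    ∃ f : (Fin 10 → ℝ) → ℝ, Continuous f ∧ HasCompactSupport f ∧
      Tendsto (fun N => R 10 N α f) atTop atTop := by
  have c : Continuous F := by unfold F; fun_prop
  have k : HasCompactSupport F := HasCompactSupport.intro (isCompact_closedBall 0 2049) F0
  refine ⟨al, ?_, ⟨1 / 64, by norm_num, fun a q q1 _ => ?_⟩, F, c, k, lim⟩
  · rintro ⟨r, hr⟩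
    have := ty r.num r.den r.den_pos
    rw [← hr, Rat.cast_def, sub_self, abs_zero] at this
    exact absurd this (not_le.2 (by have := r.den_pos; positivity))
  · rw [Real.rpow_neg (by positivity), ← div_eq_mul_inv]
    exact_mod_cast ty a q q1

end Pool.Agent.Results.MP_ba281e_nt.No
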